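import Mathlib

/-!
# The least polyomino with every row and column disconnected has 21 cells

Let `P` be a polyomino with `n` cells, `r` nonempty rows and `c` nonempty columns, none of which is
a single strip.  Every row has at least two blocks, so at most `n - 2r` pairs of cells are
horizontally adjacent, and at most `n - 2c` pairs are vertically adjacent; as `P` is connected,
`n - 1 ≤ 2n - 2r - 2c`, that is `n ≥ 2r + 2c - 1`.  No column with at most four cells in its range
which is not a single strip contains both middle cells, so connectedness gives `r ≥ 5`, and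
`c ≥ 5` by symmetry.  Hence `n ≤ 20` forces `r = c = 5` and `n ≥ 19`; but then every row misses a
cell of the three middle columns and both extreme columns miss a cell, so that `n ≤ 25 - 7`.
-/

namespace Pool.Agent.Results.MP_ae2f9f_co.TwentyOne

/-- The grid graph: the pair `(a, b)` stands for the cell `[a, a+1] × [b, b+1]`; two cells are
adjacent when they share a side. -/
def grid : SimpleGraph (ℤ × ℤ) where
  Adj p q := (p.2 = q.2 ∧ (p.1 = q.1 + 1 ∨ q.1 = p.1 + 1)) ∨
    (p.1 = q.1 ∧ (p.2 = q.2 + 1 ∨ q.2 = p.2 + 1))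
  symm := ⟨by
    intro p q h
    rcases h with ⟨h1, h2⟩ | ⟨h1, h2⟩
    · exact Or.inl ⟨h1.symm, h2.symm⟩
    · exact Or.inr ⟨h1.symm, h2.symm⟩⟩
  loopless := ⟨by
    intro p h
    rcases h with ⟨_, h2⟩ | ⟨_, h2⟩ <;> omega⟩

/-- A finite set of cells is a polyomino (a `P.card`-omino) when it is connected under
edge-adjacency (this includes that it is not empty). -/
def IsPolyomino (P : Finset (ℤ × ℤ)) : Prop := (grid.induce (P : Set (ℤ × ℤ))).Connected

/-- The `a`-coordinates of the cells of `P` in the row at height `b`. -/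
def row (P : Finset (ℤ × ℤ)) (b : ℤ) : Set ℤ := {a | (a, b) ∈ P}

/-- The `b`-coordinates of the cells of `P` in the column at `a`. -/
def column (P : Finset (ℤ × ℤ)) (a : ℤ) : Set ℤ := {b | (a, b) ∈ P}

/-- Property (S): no nonempty row and no nonempty column is a single strip, that is an interval of
integers. -/
def PropertyS (P : Finset (ℤ × ℤ)) : Prop :=
  (∀ b, (row P b).Nonempty → ¬ (row P b).OrdConnected) ∧
    (∀ a, (column P a).Nonempty → ¬ (column P a).OrdConnected)

/-! ### Counting adjacent pairs in a row -/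

lemma exists_gap {R : Set ℤ} (h : ¬ R.OrdConnected) :
    ∃ x ∈ R, ∃ y ∈ R, ∃ z, z ∉ R ∧ x < z ∧ z < y := by
  rw [Set.ordConnected_iff] at h
  push Not at h
  obtain ⟨x, hx, y, hy, _, hn⟩ := h
  rw [Set.not_subset] at hn
  obtain ⟨z, hz, hzR⟩ := hn
  refine ⟨x, hx, y, hy, z, hzR, ?_, ?_⟩
  · exact lt_of_le_of_ne hz.1 (fun e => hzR (e ▸ hx))
  · exact lt_of_le_of_ne hz.2 (fun e => hzR (e ▸ hy))

lemma count_row (R : Finset ℤ) (h : ¬ (R : Set ℤ).OrdConnected) :
    (R.filter (fun a => a + 1 ∈ R)).card + 2 ≤ R.card := by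
  obtain ⟨x, hx, y, hy, z, hz, hxz, hzy⟩ := exists_gap h
  have hx' : x ∈ R := by exact_mod_cast hx
  have hy' : y ∈ R := by exact_mod_cast hy
  have hz' : z ∉ R := by exact_mod_cast hz
  have hA : (R.filter (· < z)).Nonempty := ⟨x, by simp [hx', hxz]⟩
  set m := (R.filter (· < z)).max' hA with hm
  have hmA : m ∈ R.filter (· < z) := Finset.max'_mem _ _
  have hmR : m ∈ R := (Finset.mem_filter.1 hmA).1
  have hmz : m < z := (Finset.mem_filter.1 hmA).2
  have hm1 : m + 1 ∉ R := by
    intro h1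
    have hne : m + 1 ≠ z := fun e => hz' (e ▸ h1)
    have hlt : m + 1 < z := by omega
    have : m + 1 ≤ m := Finset.le_max' _ _ (Finset.mem_filter.2 ⟨h1, hlt⟩)
    omega
  have hRne : R.Nonempty := ⟨x, hx'⟩
  set M := R.max' hRne with hM
  have hMR : M ∈ R := Finset.max'_mem _ _
  have hM1 : M + 1 ∉ R := by
    intro h1
    have : M + 1 ≤ M := Finset.le_max' _ _ h1
    omega
  have hyM : y ≤ M := Finset.le_max' _ _ hy'
  have hmM : m ≠ M := by omega
  have hsub : R.filter (fun a => a + 1 ∈ R) ⊆ (R.erase M).erase m := by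
    intro a ha
    have ha' := Finset.mem_filter.1 ha
    refine Finset.mem_erase.2 ⟨?_, Finset.mem_erase.2 ⟨?_, ha'.1⟩⟩
    · rintro rfl
      exact hm1 ha'.2
    · rintro rfl
      exact hM1 ha'.2
  have h1 := Finset.card_le_card hsub
  rw [Finset.card_erase_of_mem (Finset.mem_erase.2 ⟨hmM, hmR⟩), Finset.card_erase_of_mem hMR] at h1
  have h2 : 2 ≤ R.card := by
    have : ({m, M} : Finset ℤ) ⊆ R := by
      intro a ha
      rcases Finset.mem_insert.1 ha with rfl | ha
      · exact hmR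
      · rw [Finset.mem_singleton.1 ha]; exact hMR
    calc 2 = ({m, M} : Finset ℤ).card := (Finset.card_pair hmM).symm
      _ ≤ _ := Finset.card_le_card this
  omega

/-- The cells of `P` whose right neighbour is in `P`. -/
def hor (P : Finset (ℤ × ℤ)) : Finset (ℤ × ℤ) := P.filter (fun p => (p.1 + 1, p.2) ∈ P)

/-- The cells of `P` whose upper neighbour is in `P`. -/
def ver (P : Finset (ℤ × ℤ)) : Finset (ℤ × ℤ) := P.filter (fun p => (p.1, p.2 + 1) ∈ P)

lemma count_hor (P : Finset (ℤ × ℤ)) (h : ∀ b, (row P b).Nonempty → ¬ (row P b).OrdConnected) :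
    (hor P).card + 2 * (P.image Prod.snd).card ≤ P.card := by
  have h1 : P.card = ∑ b ∈ P.image Prod.snd, (P.filter (fun p => p.2 = b)).card :=
    Finset.card_eq_sum_card_fiberwise (fun p hp => Finset.mem_image_of_mem _ hp)
  have h2 : (hor P).card = ∑ b ∈ P.image Prod.snd, ((hor P).filter (fun p => p.2 = b)).card :=
    Finset.card_eq_sum_card_fiberwise
      (fun p hp => Finset.mem_image_of_mem _ (Finset.mem_filter.1 hp).1)
  have h3 : 2 * (P.image Prod.snd).card = ∑ b ∈ P.image Prod.snd, 2 := by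
    rw [Finset.sum_const, smul_eq_mul, mul_comm]
  rw [h1, h2, h3, ← Finset.sum_add_distrib]
  refine Finset.sum_le_sum (fun b hb => ?_)
  obtain ⟨p, hp, hpb⟩ := Finset.mem_image.1 hb
  have hinj : Set.InjOn Prod.fst (P.filter (fun p => p.2 = b) : Set (ℤ × ℤ)) := by
    intro u hu v hv e
    have hu' := (Finset.mem_filter.1 (Finset.mem_coe.1 hu)).2
    have hv' := (Finset.mem_filter.1 (Finset.mem_coe.1 hv)).2
    exact Prod.ext e (hu'.trans hv'.symm)
  set R : Finset ℤ := (P.filter (fun p => p.2 = b)).image Prod.fst with hR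
  have hmem : ∀ a, a ∈ R ↔ (a, b) ∈ P := by
    intro a
    rw [hR, Finset.mem_image]
    constructor
    · rintro ⟨q, hq, rfl⟩
      obtain ⟨hq1, hq2⟩ := Finset.mem_filter.1 hq
      rw [← hq2]; exact hq1
    · intro ha
      exact ⟨(a, b), Finset.mem_filter.2 ⟨ha, rfl⟩, rfl⟩
  have hRrow : (R : Set ℤ) = row P b := by
    ext a
    exact hmem a
  have hno : ¬ (R : Set ℤ).OrdConnected := by
    rw [hRrow]
    refine h b ⟨p.1, ?_⟩
    show (p.1, b) ∈ P
    rw [← hpb]; exact hp
  have hcR : R.card = (P.filter (fun p => p.2 = b)).card := Finset.card_image_of_injOn hinj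
  have hcH : ((hor P).filter (fun p => p.2 = b)).card ≤ (R.filter (fun a => a + 1 ∈ R)).card := by
    refine Finset.card_le_card_of_injOn Prod.fst ?_ ?_
    · intro q hq
      obtain ⟨hq1, hq2⟩ := Finset.mem_filter.1 (Finset.mem_coe.1 hq)
      obtain ⟨hq3, hq4⟩ := Finset.mem_filter.1 hq1
      refine Finset.mem_coe.2 (Finset.mem_filter.2 ⟨(hmem _).2 ?_, (hmem _).2 ?_⟩)
      · rw [← hq2]; exact hq3
      · rw [← hq2]; exact hq4
    · intro u hu v hv e
      have hu' := (Finset.mem_filter.1 (Finset.mem_coe.1 hu)).2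
      have hv' := (Finset.mem_filter.1 (Finset.mem_coe.1 hv)).2
      exact Prod.ext e (hu'.trans hv'.symm)
  have := count_row R hno
  omega

/-! ### Exchanging rows and columns -/

/-- The polyomino reflected in the diagonal. -/
def flip (P : Finset (ℤ × ℤ)) : Finset (ℤ × ℤ) := P.map (Equiv.prodComm ℤ ℤ).toEmbedding

lemma mem_flip (P : Finset (ℤ × ℤ)) (a b : ℤ) : (a, b) ∈ flip P ↔ (b, a) ∈ P := by
  unfold flip
  rw [Finset.mem_map_equiv]
  simp

lemma card_flip (P : Finset (ℤ × ℤ)) : (flip P).card = P.card := Finset.card_map _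

lemma count_ver (P : Finset (ℤ × ℤ))
    (h : ∀ a, (column P a).Nonempty → ¬ (column P a).OrdConnected) :
    (ver P).card + 2 * (P.image Prod.fst).card ≤ P.card := by
  have hrow : ∀ b, row (flip P) b = column P b := by
    intro b; ext a; exact mem_flip P a b
  have := count_hor (flip P) (fun b => by rw [hrow]; exact h b)
  rw [card_flip] at this
  have h1 : (hor (flip P)).card = (ver P).card := by
    have : hor (flip P) = flip (ver P) := by
      ext ⟨a, b⟩
      simp only [hor, ver, Finset.mem_filter, mem_flip]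
    rw [this, card_flip]
  have h2 : (flip P).image Prod.snd = P.image Prod.fst := by
    ext a
    simp only [Finset.mem_image]
    constructor
    · rintro ⟨⟨x, y⟩, hq, rfl⟩
      exact ⟨(y, x), (mem_flip P x y).1 hq, rfl⟩
    · rintro ⟨⟨x, y⟩, hq, rfl⟩
      exact ⟨(y, x), (mem_flip P y x).2 hq, rfl⟩
  rw [h1, h2] at this
  exact this

/-! ### Connectedness -/

lemma card_le_edges (P : Finset (ℤ × ℤ)) (h : IsPolyomino P) :
    P.card ≤ (hor P).card + (ver P).card + 1 := by
  classical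
  have h1 := h.card_vert_le_card_edgeSet_add_one
  have hV : Nat.card (P : Set (ℤ × ℤ)) = P.card := by simp
  rw [hV] at h1
  set G := grid.induce (P : Set (ℤ × ℤ)) with hG
  have hinj : Function.Injective (Sym2.map (Subtype.val : ↥(P : Set (ℤ × ℤ)) → ℤ × ℤ)) :=
    Sym2.map.injective Subtype.val_injective
  have h2 : Nat.card G.edgeSet =
      (Sym2.map (Subtype.val : ↥(P : Set (ℤ × ℤ)) → ℤ × ℤ) '' G.edgeSet).ncard := by
    rw [Set.ncard_image_of_injective _ hinj]
    rfl
  have h3 : (Sym2.map (Subtype.val : ↥(P : Set (ℤ × ℤ)) → ℤ × ℤ) '' G.edgeSet) ⊆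
      (((hor P).image (fun p => s(p, (p.1 + 1, p.2))) ∪
        (ver P).image (fun p => s(p, (p.1, p.2 + 1))) : Finset (Sym2 (ℤ × ℤ))) :
          Set (Sym2 (ℤ × ℤ))) := by
    rintro e ⟨e', he', rfl⟩
    induction e' using Sym2.ind with
    | _ u v =>
      rw [SimpleGraph.mem_edgeSet] at he'
      have hadj : grid.Adj u.1 v.1 := he'
      obtain ⟨⟨u1, u2⟩, hu⟩ := u
      obtain ⟨⟨v1, v2⟩, hv⟩ := v
      have hu' : (u1, u2) ∈ P := by exact_mod_cast hu
      have hv' : (v1, v2) ∈ P := by exact_mod_cast hv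
      rw [Finset.mem_coe, Finset.mem_union, Finset.mem_image, Finset.mem_image]
      simp only [grid] at hadj
      simp only [Sym2.map_mk]
      rcases hadj with ⟨e1, e2 | e2⟩ | ⟨e1, e2 | e2⟩
      · left
        subst e1 e2
        exact ⟨(v1, u2), Finset.mem_filter.2 ⟨hv', hu'⟩, Sym2.eq_swap⟩
      · left
        subst e1 e2
        exact ⟨(u1, u2), Finset.mem_filter.2 ⟨hu', hv'⟩, rfl⟩
      · right
        subst e1 e2
        exact ⟨(u1, v2), Finset.mem_filter.2 ⟨hv', hu'⟩, Sym2.eq_swap⟩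
      · right
        subst e1 e2
        exact ⟨(u1, u2), Finset.mem_filter.2 ⟨hu', hv'⟩, rfl⟩
  have h4 := Set.ncard_le_ncard h3 (Finset.finite_toSet _)
  rw [Set.ncard_coe_finset] at h4
  have h5 := Finset.card_union_le ((hor P).image (fun p => s(p, (p.1 + 1, p.2))))
    ((ver P).image (fun p => s(p, (p.1, p.2 + 1))))
  have h6 : ((hor P).image (fun p => s(p, (p.1 + 1, p.2)))).card ≤ (hor P).card :=
    Finset.card_image_le
  have h7 : ((ver P).image (fun p => s(p, (p.1, p.2 + 1)))).card ≤ (ver P).card :=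
    Finset.card_image_le
  omega

/-- Two consecutive levels, with cells of `P` on both sides, are joined by a vertical pair. -/
lemma crossing (P : Finset (ℤ × ℤ)) (h : IsPolyomino P) (k : ℤ) {p q : ℤ × ℤ} (hp : p ∈ P)
    (hq : q ∈ P) (hpk : p.2 ≤ k) (hqk : k + 1 ≤ q.2) : ∃ a, (a, k) ∈ P ∧ (a, k + 1) ∈ P := by
  by_contra hno
  push Not at hno
  have key : ∀ (u v : (P : Set (ℤ × ℤ))), (grid.induce (P : Set (ℤ × ℤ))).Walk u v →
      u.1.2 ≤ k → v.1.2 ≤ k := by
    intro u v w
    induction w with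
    | nil => exact id
    | @cons u v w hadj _ ih =>
      intro hu
      apply ih
      have hadj' : grid.Adj u.1 v.1 := hadj
      obtain ⟨⟨u1, u2⟩, hu0⟩ := u
      obtain ⟨⟨v1, v2⟩, hv0⟩ := v
      have hu' : (u1, u2) ∈ P := by exact_mod_cast hu0
      have hv' : (v1, v2) ∈ P := by exact_mod_cast hv0
      simp only [grid] at hadj'
      simp only at hu ⊢
      rcases hadj' with ⟨e1, _⟩ | ⟨e1, e2 | e2⟩
      · omega
      · omega
      · by_contra hgt
        have e3 : u2 = k := by omega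
        subst e3 e1 e2
        exact hno _ hu' hv'
  obtain ⟨w⟩ := h.preconnected ⟨p, by exact_mod_cast hp⟩ ⟨q, by exact_mod_cast hq⟩
  have := key _ _ w hpk
  simp only at this
  omega

/-- A polyomino with property (S) for its columns has exactly `hi - lo + 1 ≥ 5` rows. -/
lemma rows_eq (P : Finset (ℤ × ℤ)) (h : IsPolyomino P)
    (hc : ∀ a, (column P a).Nonempty → ¬ (column P a).OrdConnected) :
    ∃ lo hi : ℤ, lo + 4 ≤ hi ∧ P.image Prod.snd = Finset.Icc lo hi := by
  obtain ⟨⟨p0, hp0⟩⟩ := h.nonempty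
  have hp0' : p0 ∈ P := by exact_mod_cast hp0
  have hne : (P.image Prod.snd).Nonempty := ⟨p0.2, Finset.mem_image_of_mem _ hp0'⟩
  set lo := (P.image Prod.snd).min' hne with hlo
  set hi := (P.image Prod.snd).max' hne with hhi
  have hlom : lo ∈ P.image Prod.snd := Finset.min'_mem _ _
  have hhim : hi ∈ P.image Prod.snd := Finset.max'_mem _ _
  have hle : ∀ {a b : ℤ}, (a, b) ∈ P → lo ≤ b ∧ b ≤ hi := by
    intro a b hab
    have : b ∈ P.image Prod.snd := Finset.mem_image.2 ⟨(a, b), hab, rfl⟩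
    exact ⟨Finset.min'_le _ _ this, Finset.le_max' _ _ this⟩
  obtain ⟨⟨a0, b0⟩, hlo1, hlo2⟩ := Finset.mem_image.1 hlom
  obtain ⟨⟨a1, b1⟩, hhi1, hhi2⟩ := Finset.mem_image.1 hhim
  simp only at hlo2 hhi2
  refine ⟨lo, hi, ?_, ?_⟩
  · by_contra hlt
    push Not at hlt
    obtain ⟨x, hx, y, hy, z, _, hxz, hzy⟩ := exists_gap (hc a0 ⟨b0, hlo1⟩)
    have hx' : (a0, x) ∈ P := hx
    have hy' : (a0, y) ∈ P := hy
    have hxlo := (hle hx').1
    obtain ⟨a, ha1, ha2⟩ := crossing P h (lo + 1) hlo1 hy' (by simp only; omega)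
      (by simp only; omega)
    obtain ⟨x', hx', y', hy', z', hz', hxz', hzy'⟩ := exists_gap (hc a ⟨lo + 1, ha1⟩)
    have hx1 := (hle (show (a, x') ∈ P from hx')).1
    have hy1 := (hle (show (a, y') ∈ P from hy')).2
    have hz1 : z' = lo + 1 ∨ z' = lo + 1 + 1 := by omega
    rcases hz1 with rfl | rfl
    · exact hz' ha1
    · exact hz' ha2
  · ext k
    rw [Finset.mem_Icc]
    constructor
    · intro hk
      obtain ⟨⟨a, b⟩, hab, rfl⟩ := Finset.mem_image.1 hk
      exact hle hab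
    · rintro ⟨hk1, hk2⟩
      rcases eq_or_lt_of_le hk2 with rfl | hlt
      · exact hhim
      · obtain ⟨a, ha, _⟩ := crossing P h k hlo1 hhi1 (by simp only; omega) (by simp only; omega)
        exact Finset.mem_image.2 ⟨(a, k), ha, rfl⟩

lemma flip_polyomino (P : Finset (ℤ × ℤ)) (h : IsPolyomino P) : IsPolyomino (flip P) := by
  unfold IsPolyomino at *
  let e : ↥(P : Set (ℤ × ℤ)) → ↥(flip P : Set (ℤ × ℤ)) := fun p =>
    ⟨(p.1.2, p.1.1), by
      have := p.2
      exact_mod_cast (mem_flip P p.1.2 p.1.1).2 (by exact_mod_cast this)⟩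
  let f : (grid.induce (P : Set (ℤ × ℤ))) →g (grid.induce (flip P : Set (ℤ × ℤ))) :=
    ⟨e, by
      intro u v huv
      have huv' : grid.Adj u.1 v.1 := huv
      show grid.Adj (u.1.2, u.1.1) (v.1.2, v.1.1)
      simp only [grid] at huv' ⊢
      tauto⟩
  refine h.map f ?_
  rintro ⟨⟨a, b⟩, hab⟩
  have hab' : (b, a) ∈ P := (mem_flip P a b).1 (by exact_mod_cast hab)
  exact ⟨⟨(b, a), by exact_mod_cast hab'⟩, rfl⟩

lemma lower (P : Finset (ℤ × ℤ)) (h : IsPolyomino P) (hS : PropertyS P) : 21 ≤ P.card := by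
  by_contra hlt
  push Not at hlt
  obtain ⟨hr, hc⟩ := hS
  have h1 := count_hor P hr
  have h2 := count_ver P hc
  have h3 := card_le_edges P h
  obtain ⟨y0, y1, hy, hrows⟩ := rows_eq P h hc
  have hcolflip : ∀ a, column (flip P) a = row P a := by
    intro a; ext b; exact mem_flip P a b
  obtain ⟨x0, x1, hx, hcols'⟩ := rows_eq (flip P) (flip_polyomino P h)
    (fun a => by rw [hcolflip]; exact hr a)
  have hcols : P.image Prod.fst = Finset.Icc x0 x1 := by
    rw [← hcols']
    ext a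
    simp only [Finset.mem_image]
    constructor
    · rintro ⟨⟨x, y⟩, hq, rfl⟩
      exact ⟨(y, x), (mem_flip P y x).2 hq, rfl⟩
    · rintro ⟨⟨x, y⟩, hq, rfl⟩
      exact ⟨(y, x), (mem_flip P x y).1 hq, rfl⟩
  rw [hrows, Int.card_Icc] at h1
  rw [hcols, Int.card_Icc] at h2
  have hy1 : y1 = y0 + 4 := by omega
  have hx1 : x1 = x0 + 4 := by omega
  subst hy1 hx1
  have hcard : 19 ≤ P.card := by omega
  -- all cells are in the box
  have hbox : ∀ {a b : ℤ}, (a, b) ∈ P → x0 ≤ a ∧ a ≤ x0 + 4 ∧ y0 ≤ b ∧ b ≤ y0 + 4 := by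
    intro a b hab
    have e1 : b ∈ P.image Prod.snd := Finset.mem_image.2 ⟨(a, b), hab, rfl⟩
    have e2 : a ∈ P.image Prod.fst := Finset.mem_image.2 ⟨(a, b), hab, rfl⟩
    rw [hrows, Finset.mem_Icc] at e1
    rw [hcols, Finset.mem_Icc] at e2
    exact ⟨e2.1, e2.2, e1.1, e1.2⟩
  have hz : ∀ b ∈ Finset.Icc y0 (y0 + 4), ∃ z, (z, b) ∉ P ∧ x0 < z ∧ z < x0 + 4 := by
    intro b hb
    rw [← hrows] at hb
    obtain ⟨⟨a, b'⟩, hab, rfl⟩ := Finset.mem_image.1 hb
    obtain ⟨x, hx, y, hy, z, hz, hxz, hzy⟩ := exists_gap (hr b' ⟨a, hab⟩)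
    have e1 := hbox (show (x, b') ∈ P from hx)
    have e2 := hbox (show (y, b') ∈ P from hy)
    exact ⟨z, hz, by omega, by omega⟩
  choose! z hz1 hz2 hz3 using hz
  have hw : ∀ a ∈ Finset.Icc x0 (x0 + 4), ∃ w, (a, w) ∉ P ∧ y0 < w ∧ w < y0 + 4 := by
    intro a ha
    rw [← hcols] at ha
    obtain ⟨⟨a', b⟩, hab, rfl⟩ := Finset.mem_image.1 ha
    obtain ⟨x, hx, y, hy, z, hz, hxz, hzy⟩ := exists_gap (hc a' ⟨b, hab⟩)
    have e1 := hbox (show (a', x) ∈ P from hx)
    have e2 := hbox (show (a', y) ∈ P from hy)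
    exact ⟨z, hz, by omega, by omega⟩
  obtain ⟨w0, hw0, hw0a, hw0b⟩ := hw x0 (Finset.mem_Icc.2 ⟨le_rfl, by omega⟩)
  obtain ⟨w1, hw1, hw1a, hw1b⟩ := hw (x0 + 4) (Finset.mem_Icc.2 ⟨by omega, le_rfl⟩)
  set M : Finset (ℤ × ℤ) := (Finset.Icc y0 (y0 + 4)).image (fun b => (z b, b)) with hM
  have hMc : M.card = 5 := by
    rw [hM, Finset.card_image_of_injective _ (fun b b' e => (Prod.ext_iff.1 e).2), Int.card_Icc]
    omega
  have hmemM : ∀ {a b : ℤ}, (a, b) ∈ M → a = z b ∧ y0 ≤ b ∧ b ≤ y0 + 4 := by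
    intro a b hab
    obtain ⟨b', hb', e⟩ := Finset.mem_image.1 hab
    obtain ⟨e1, e2⟩ := Prod.ext_iff.1 e
    simp only at e1 e2
    subst e2
    exact ⟨e1.symm, Finset.mem_Icc.1 hb'⟩
  have hn1 : (x0, w0) ∉ M := by
    intro hh
    obtain ⟨e, e1, e2⟩ := hmemM hh
    have := hz2 w0 (Finset.mem_Icc.2 ⟨e1, e2⟩)
    omega
  have hn2 : (x0 + 4, w1) ∉ insert (x0, w0) M := by
    intro hh
    rcases Finset.mem_insert.1 hh with e | hh
    · have := (Prod.ext_iff.1 e).1
      simp only at this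
      omega
    · obtain ⟨e, e1, e2⟩ := hmemM hh
      have := hz3 w1 (Finset.mem_Icc.2 ⟨e1, e2⟩)
      omega
  set N := insert (x0 + 4, w1) (insert (x0, w0) M) with hN
  have hNc : N.card = 7 := by
    rw [hN, Finset.card_insert_of_notMem hn2, Finset.card_insert_of_notMem hn1, hMc]
  have hdisj : Disjoint P N := by
    rw [Finset.disjoint_left]
    rintro ⟨a, b⟩ hab hh
    rcases Finset.mem_insert.1 hh with e | hh
    · rw [e] at hab; exact hw1 hab
    · rcases Finset.mem_insert.1 hh with e | hh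
      · rw [e] at hab; exact hw0 hab
      · obtain ⟨e, e1, e2⟩ := hmemM hh
        rw [e] at hab
        exact hz1 b (Finset.mem_Icc.2 ⟨e1, e2⟩) hab
  have hsub : P ∪ N ⊆ Finset.Icc x0 (x0 + 4) ×ˢ Finset.Icc y0 (y0 + 4) := by
    rintro ⟨a, b⟩ hab
    rw [Finset.mem_product, Finset.mem_Icc, Finset.mem_Icc]
    rcases Finset.mem_union.1 hab with hab | hh
    · have := hbox hab
      exact ⟨⟨this.1, this.2.1⟩, this.2.2⟩
    · rcases Finset.mem_insert.1 hh with e | hh
      · obtain ⟨e1, e2⟩ := Prod.ext_iff.1 e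
        simp only at e1 e2 ⊢
        omega
      · rcases Finset.mem_insert.1 hh with e | hh
        · obtain ⟨e1, e2⟩ := Prod.ext_iff.1 e
          simp only at e1 e2 ⊢
          omega
        · obtain ⟨e, e1, e2⟩ := hmemM hh
          have e3 := hz2 b (Finset.mem_Icc.2 ⟨e1, e2⟩)
          have e4 := hz3 b (Finset.mem_Icc.2 ⟨e1, e2⟩)
          simp only
          omega
  have hfin := Finset.card_le_card hsub
  rw [Finset.card_union_of_disjoint hdisj, hNc, Finset.card_product, Int.card_Icc,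
    Int.card_Icc] at hfin
  have e5 : (x0 + 4 + 1 - x0).toNat = 5 := by omega
  have e6 : (y0 + 4 + 1 - y0).toNat = 5 := by omega
  rw [e5, e6] at hfin
  omega

/-! ### The example -/

/-- The cells of a `21`-omino with property (S), every cell but the first being adjacent to an
earlier one. -/
def cell : Fin 21 → ℤ × ℤ :=
  ![(0, 0), (1, 0), (0, 1), (2, 0), (0, 2), (2, 1), (1, 2), (3, 1), (1, 3), (4, 1),
    (2, 3), (1, 4), (5, 1), (4, 2), (4, 0), (3, 3), (0, 4), (3, 4), (4, 4), (5, 4), (5, 3)]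

/-- The example. -/
def ex : Finset (ℤ × ℤ) := Finset.univ.image cell

lemma cell_injective : Function.Injective cell := by decide

lemma card_ex : ex.card = 21 := by
  rw [ex, Finset.card_image_of_injective _ cell_injective]
  rfl

instance : DecidableRel grid.Adj := fun p q => by
  unfold grid
  infer_instance

lemma earlier : ∀ i : Fin 21, i ≠ 0 → ∃ j : Fin 21, j < i ∧ grid.Adj (cell j) (cell i) := by
  decide

lemma mem_ex (i : Fin 21) : cell i ∈ ex := Finset.mem_image_of_mem _ (Finset.mem_univ _)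

lemma ex_polyomino : IsPolyomino ex := by
  unfold IsPolyomino
  have key : ∀ n : ℕ, ∀ i : Fin 21, i.val = n →
      (grid.induce (ex : Set (ℤ × ℤ))).Reachable ⟨cell 0, by exact_mod_cast mem_ex 0⟩
        ⟨cell i, by exact_mod_cast mem_ex i⟩ := by
    intro n
    induction n using Nat.strong_induction_on with
    | _ n ih =>
      intro i hi
      by_cases h0 : i = 0
      · subst h0; exact SimpleGraph.Reachable.refl _
      · obtain ⟨j, hj, hadj⟩ := earlier i h0
        refine (ih j.val (by rw [← hi]; exact hj) j rfl).trans ?_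
        exact SimpleGraph.Adj.reachable hadj
  rw [SimpleGraph.connected_iff_exists_forall_reachable]
  refine ⟨⟨cell 0, by exact_mod_cast mem_ex 0⟩, ?_⟩
  rintro ⟨p, hp⟩
  have hp' : p ∈ ex := by exact_mod_cast hp
  obtain ⟨i, _, rfl⟩ := Finset.mem_image.1 hp'
  exact key i.val i rfl

lemma ex_rows : ∀ i : Fin 21, ∃ j k : Fin 21, (cell j).2 = (cell i).2 ∧ (cell k).2 = (cell i).2 ∧
    ∃ z ∈ Finset.Ioo (cell j).1 (cell k).1, ∀ l : Fin 21, cell l ≠ (z, (cell i).2) := by
  decide

lemma ex_columns : ∀ i : Fin 21, ∃ j k : Fin 21, (cell j).1 = (cell i).1 ∧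
    (cell k).1 = (cell i).1 ∧
    ∃ z ∈ Finset.Ioo (cell j).2 (cell k).2, ∀ l : Fin 21, cell l ≠ ((cell i).1, z) := by
  decide

lemma ex_S : PropertyS ex := by
  constructor
  · rintro b ⟨a, hab⟩ hO
    have hab' : (a, b) ∈ ex := hab
    obtain ⟨i, _, hi⟩ := Finset.mem_image.1 hab'
    obtain ⟨j, k, hj, hk, z, hz, hl⟩ := ex_rows i
    have hb : (cell i).2 = b := by rw [hi]
    rw [hb] at hj hk hl
    rw [Finset.mem_Ioo] at hz
    have h1 : (cell j).1 ∈ row ex b := by
      show ((cell j).1, b) ∈ ex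
      rw [← hj]; exact mem_ex j
    have h2 : (cell k).1 ∈ row ex b := by
      show ((cell k).1, b) ∈ ex
      rw [← hk]; exact mem_ex k
    have h3 : (z, b) ∈ ex := hO.out h1 h2 ⟨hz.1.le, hz.2.le⟩
    obtain ⟨l, _, hl'⟩ := Finset.mem_image.1 h3
    exact hl l hl'
  · rintro a ⟨b, hab⟩ hO
    have hab' : (a, b) ∈ ex := hab
    obtain ⟨i, _, hi⟩ := Finset.mem_image.1 hab'
    obtain ⟨j, k, hj, hk, z, hz, hl⟩ := ex_columns i
    have hb : (cell i).1 = a := by rw [hi]
    rw [hb] at hj hk hl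
    rw [Finset.mem_Ioo] at hz
    have h1 : (cell j).2 ∈ column ex a := by
      show (a, (cell j).2) ∈ ex
      rw [← hj]; exact mem_ex j
    have h2 : (cell k).2 ∈ column ex a := by
      show (a, (cell k).2) ∈ ex
      rw [← hk]; exact mem_ex k
    have h3 : (a, z) ∈ ex := hO.out h1 h2 ⟨hz.1.le, hz.2.le⟩
    obtain ⟨l, _, hl'⟩ := Finset.mem_image.1 h3
    exact hl l hl'

/-- **Theorem.** The least positive integer `n` such that some `n`-omino has property (S), that is
none of its nonempty rows and columns is a single strip, is `21`. -/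
theorem result : IsLeast {n : ℕ | 0 < n ∧ ∃ P : Finset (ℤ × ℤ), P.card = n ∧ IsPolyomino P ∧
    PropertyS P} 21 := by
  constructor
  · exact ⟨by norm_num, ex, card_ex, ex_polyomino, ex_S⟩
  · rintro n ⟨_, P, rfl, hP, hS⟩
    exact lower P hP hS

end Pool.Agent.Results.MP_ae2f9f_co.TwentyOne
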